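import Pool.Agent.FS.SubdivisionFree.Tree

/-!
If `lam ^ θ = lam`, a graph without `K(lam⁺, θ)` and without an induced copy of the once
subdivided `K(m, m)` has colouring number at most `lam`.
-/

namespace Pool.Agent.FS.SubdivisionFree

open Cardinal Set Order
open Pool.Agent.Lib.MP_cabec5_lc

variable {U : Type} {G : SimpleGraph U} {θ lam : Cardinal.{0}} {m : ℕ}

/-- the vertices `p.1`, `p.2 i` and `z i` induce a subdivided star with leaves `z i` -/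
def Sp (G : SimpleGraph U) (z : Fin m → U) (p : U × (Fin m → U)) : Prop :=
  (∀ i, G.Adj p.1 (p.2 i) ∧ G.Adj (z i) (p.2 i) ∧ ¬ G.Adj (z i) p.1) ∧
    ∀ i j, i ≠ j → ¬ G.Adj (p.2 i) (p.2 j) ∧ ¬ G.Adj (z i) (z j) ∧ ¬ G.Adj (z i) (p.2 j)

def inn (p : U × (Fin m → U)) : Set U := insert p.1 (range p.2)

/-- the once subdivided complete bipartite graph -/
abbrev sub (m : ℕ) : SimpleGraph ((Fin m ⊕ Fin m) ⊕ Fin m × Fin m) :=
  SimpleGraph.fromRel fun a b =>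
    ∃ i j, b = Sum.inr (i, j) ∧ (a = Sum.inl (Sum.inl i) ∨ a = Sum.inl (Sum.inr j))

theorem sub_of_spiders (hm : 2 ≤ m) {z : Fin m → U} {f : Fin m → U × (Fin m → U)}
    (hf : ∀ k, Sp G z (f k))
    (h : ∀ k l, k ≠ l → ∀ u ∈ inn (f k), ∀ w ∈ inn (f l), ¬ G.Adj u w) :
    (sub m).IsIndContained G := by
  have e1 : ∀ i j, ¬ G.Adj (z i) (z j) := fun i j => by
    rcases eq_or_ne i j with rfl | e
    exacts [G.irrefl, ((hf i).2 i j e).2.1]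
  have e2 : ∀ i k, ¬ G.Adj (z i) (f k).1 := fun i k => ((hf k).1 i).2.2
  have e3 : ∀ i j l, G.Adj (z i) ((f l).2 j) ↔ i = j := fun i j l =>
    ⟨fun e => by_contra fun n => ((hf l).2 i j n).2.2 e, fun e => e ▸ ((hf l).1 i).2.1⟩
  have e4 : ∀ k l, ¬ G.Adj (f k).1 (f l).1 := fun k l => by
    rcases eq_or_ne k l with rfl | e
    exacts [G.irrefl, h k l e _ (mem_insert _ _) _ (mem_insert _ _)]
  have e5 : ∀ k j l, G.Adj (f k).1 ((f l).2 j) ↔ k = l := fun k j l =>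
    ⟨fun e => by_contra fun n => h k l n _ (mem_insert _ _) _ (Or.inr ⟨j, rfl⟩) e,
      fun e => e ▸ ((hf k).1 j).1⟩
  have e6 : ∀ i k j l, ¬ G.Adj ((f k).2 i) ((f l).2 j) := fun i k j l => by
    rcases eq_or_ne k l with rfl | e
    · rcases eq_or_ne i j with rfl | e
      exacts [G.irrefl, ((hf k).2 i j e).1]
    · exact h k l e _ (Or.inr ⟨i, rfl⟩) _ (Or.inr ⟨j, rfl⟩)
  have e2' : ∀ i k, ¬ G.Adj (f k).1 (z i) := fun i k e => e2 i k e.symm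
  have e3' : ∀ i j l, G.Adj ((f l).2 j) (z i) ↔ i = j := fun i j l =>
    (G.adj_comm _ _).trans (e3 i j l)
  have e5' : ∀ k j l, G.Adj ((f l).2 j) (f k).1 ↔ k = l := fun k j l =>
    (G.adj_comm _ _).trans (e5 k j l)
  let φ : (Fin m ⊕ Fin m) ⊕ Fin m × Fin m → U :=
    Sum.elim (Sum.elim z fun k => (f k).1) fun q => (f q.2).2 q.1
  have key : ∀ a c, G.Adj (φ a) (φ c) ↔ (sub m).Adj a c := by
    rintro ((i | k) | ⟨i, k⟩) ((j | l) | ⟨j, l⟩) <;>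
      simp [φ, SimpleGraph.fromRel_adj, e1, e2, e3, e4, e5, e6, e2', e3', e5'] <;> exact eq_comm
  have : Nontrivial (Fin m) := Fin.nontrivial_iff_two_le.2 hm
  refine ⟨⟨⟨φ, fun a c e => ?_⟩, fun {a c} => key a c⟩⟩
  have tw : ∀ d, G.Adj (φ a) (φ d) ↔ G.Adj (φ c) (φ d) := fun d => by rw [e]
  rcases a with ((i | k) | ⟨i, k⟩) <;> rcases c with ((j | l) | ⟨j, l⟩)
  · simpa [φ, e3, eq_comm] using tw (Sum.inr (i, i))
  · obtain ⟨k, hk⟩ := exists_ne l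
    simpa [φ, e3, e5, hk.symm] using tw (Sum.inr (i, k))
  · simpa [φ, e3, e6] using tw (Sum.inr (i, i))
  · obtain ⟨i, hi⟩ := exists_ne j
    simpa [φ, e3, e5, hi.symm] using tw (Sum.inr (i, k))
  · simpa [φ, e5, eq_comm] using tw (Sum.inr (k, k))
  · simpa [φ, e5, e6] using tw (Sum.inr (k, k))
  · simpa [φ, e3, e6] using tw (Sum.inr (j, j))
  · simpa [φ, e5, e6] using tw (Sum.inr (l, l))
  · have h1 : i = j := by simpa [φ, e3'] using tw (Sum.inl (Sum.inl i))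
    have h2 : k = l := by simpa [φ, e5'] using tw (Sum.inl (Sum.inr k))
    rw [h1, h2]

theorem exists_hit (h0 : ℵ₀ ≤ θ) (hl : θ < lam) (hp : lam ^ θ ≤ lam)
    (hK : ∀ B : Set U, #B = θ → #{v | ∀ b ∈ B, G.Adj v b} ≤ lam) (hm : 2 ≤ m)
    (hc : ¬ (sub m).IsIndContained G) (z : Fin m → U) :
    ∃ T : Set U, #T ≤ lam ∧ ∀ p, Sp G z p → ¬ Disjoint (inn p) T := by
  by_contra h
  push Not at h
  obtain ⟨f, hf, hf'⟩ := exists_apart h0 hl hp hK (inn := inn)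
    (fun p => (finite_range _).insert _) (fun p => insert_nonempty _ _) m {p | Sp G z p} h
  exact hc (sub_of_spiders hm hf hf')

theorem few_nbrs (h0 : ℵ₀ ≤ θ) (hl : θ < lam) (hp : lam ^ θ ≤ lam)
    (hK : ∀ B : Set U, #B = θ → #{v | ∀ b ∈ B, G.Adj v b} ≤ lam)
    (hT : ∀ A : Set U, #A ≤ lam → ∃ T : Set U, #T ≤ lam ∧
      ∀ z : Fin m → U, (∀ i, z i ∈ A) → ∀ p, Sp G z p → ¬ Disjoint (inn p) T)
    {Z : Set U} (hZ : ∀ x ∈ Z, ∀ b ∈ Z, lam < #{w | G.Adj x w ∧ G.Adj b w}) : #Z ≤ lam := by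
  have h1 : ℵ₀ ≤ lam := h0.trans hl.le
  by_contra h
  obtain ⟨A, hA, hA', g, hg, hg'⟩ := exists_sparse h0 hl hp hK (not_le.1 h)
  have hA2 : #A ≤ lam := hA' ▸ succ_le_of_lt hl
  obtain ⟨T, hT, hT'⟩ := hT A hA2
  obtain ⟨b, hb, hb'⟩ := exists_not_mem (((mk_union_le (Bad G θ A) T).trans
    (add_le_of_le h1 (card_bad h1 hp hK hA2) hT)).trans_lt (not_le.1 h))
  choose t ht ht' using fun x : A => exists_trace_in h1 hp hK hA2 (hZ x (hA x.2) b hb)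
  obtain ⟨z, hz⟩ := free_set (U := A) h0 (by rw [hA']; exact lt_succ θ)
    (f := fun x => g x ∪ Subtype.val ⁻¹' ({u | u ∈ A ∧ G.Adj u b} ∪ t x)) (fun x =>
    (mk_union_le _ _).trans_lt (add_lt_of_lt h0 (hg x)
      ((mk_preimage_of_injective Subtype.val _ Subtype.val_injective).trans_lt
        ((mk_union_le _ _).trans_lt (add_lt_of_lt h0 (not_le.1 fun e => hb' (Or.inl e))
          (ht x)))))) (m + 1)
  have : Nonempty U := ⟨b⟩
  obtain ⟨y, hy, hy'⟩ := exists_transversal h0 hl hK (Finset.univ : Finset (Fin m))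
    (fun i => {w | w ∈ {w | G.Adj (z i.succ) w ∧ G.Adj b w} ∧
      ∀ x ∈ A, G.Adj x w → x ∈ t (z i.succ)} \ T) fun i _ => not_le.1 fun e =>
    absurd ((mk_le_mk_of_subset (subset_sdiff_union _ T)).trans ((mk_union_le _ _).trans
      (add_le_of_le h1 e hT))) (not_le.2 (ht' (z i.succ)))
  have hs : ∀ i j : Fin m, i ≠ j → i.succ ≠ j.succ := fun i j e e' => e (Fin.succ_injective _ e')
  refine hT' (fun i => z i.succ) (fun i => (z _).2) (b, y) ⟨fun i => ⟨(hy i (Finset.mem_univ _)).1.1.2,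
    (hy i (Finset.mem_univ _)).1.1.1, fun e => hz _ 0 (Fin.succ_ne_zero i)
      (Or.inr (Or.inl ⟨(z _).2, e⟩))⟩, fun i j e => ⟨(hy' i (Finset.mem_univ _) j
        (Finset.mem_univ _) e).2, (hg' _ _ (fun h => hz _ _ (hs i j e) (Or.inl h))
          fun h => hz _ _ (hs j i e.symm) (Or.inl h)).2, fun h => hz _ _ (hs i j e)
            (Or.inr (Or.inr ((hy j (Finset.mem_univ _)).1.2 _ (z _).2 h)))⟩⟩ (disjoint_left.2 ?_)
  rintro u (rfl | ⟨i, rfl⟩) hu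
  · exact hb' (Or.inr hu)
  · exact (hy i (Finset.mem_univ _)).2 hu

theorem exists_legs (h0 : ℵ₀ ≤ θ) (hl : θ < lam) (hp : lam ^ θ ≤ lam)
    (hK : ∀ B : Set U, #B = θ → #{v | ∀ b ∈ B, G.Adj v b} ≤ lam) {M : Set U} {P : U → Set U}
    (hP : ∀ y, P y ⊆ {u | u ∈ M ∧ G.Adj u y}) (n : ℕ) : ∀ Y W : Set U, lam < #Y → #W ≤ lam →
      (∀ y ∈ Y, θ ≤ #(P y) ∧ #{u | u ∈ M ∧ G.Adj u y} ≤ lam) → ∃ y z : Fin n → U,
      (∀ i, y i ∈ Y ∧ z i ∈ P (y i) ∧ z i ∉ W) ∧ ∀ i j, i ≠ j →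
        ¬ G.Adj (y i) (y j) ∧ ¬ G.Adj (z i) (z j) ∧ ¬ G.Adj (z i) (y j) := by
  have h1 : ℵ₀ ≤ lam := h0.trans hl.le
  induction n with
  | zero => exact fun _ _ _ _ _ => ⟨Fin.elim0, Fin.elim0, fun i => i.elim0, fun i => i.elim0⟩
  | succ n ih =>
    intro Y W hY hW h
    obtain ⟨a, ha, ha'⟩ := exists_not_mem (((mk_union_le _ _).trans (add_le_of_le h1
      (card_bad h1 hp hK hW) ((core_small h0 hl hK hY).le.trans hl.le))).trans_lt hY)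
    have h2 : lam < #{y | y ∈ Y ∧ ¬ G.Adj a y} := not_le.1 fun e => ha' (Or.inr e)
    have h3 := card_bad h1 hp hK (h a ha).2
    obtain ⟨y, z, h4, h5⟩ := ih ({y | y ∈ Y ∧ ¬ G.Adj a y} \ Bad G θ {u | u ∈ M ∧ G.Adj u a})
      (W ∪ ({u | u ∈ M ∧ G.Adj u a} ∪ Bad G θ {u | u ∈ M ∧ G.Adj u a}))
      (not_le.1 fun e => absurd ((mk_le_mk_of_subset (subset_sdiff_union _ _)).trans
        ((mk_union_le _ _).trans (add_le_of_le h1 e h3))) (not_le.2 h2))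
      ((mk_union_le _ _).trans (add_le_of_le h1 hW ((mk_union_le _ _).trans
        (add_le_of_le h1 (h a ha).2 h3)))) fun y hy => h y hy.1.1
    have h6 : #{u | u ∈ W ∧ G.Adj u a} < θ := not_le.1 fun e => ha' (Or.inl e)
    have h7 : #(⋃ i ∈ (univ : Set (Fin n)), {u | u ∈ {u | u ∈ M ∧ G.Adj u a} ∧ G.Adj u (y i)} ∪
        {u | u ∈ {u | u ∈ M ∧ G.Adj u a} ∧ G.Adj u (z i)}) < θ :=
      small_biUnion h0 finite_univ fun i _ => (mk_union_le _ _).trans_lt (add_lt_of_lt h0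
        (not_le.1 (h4 i).1.2) (not_le.1 fun e => (h4 i).2.2 (Or.inr (Or.inr e))))
    obtain ⟨c, hc, hc'⟩ := exists_not_mem
      (((mk_union_le _ _).trans_lt (add_lt_of_lt h0 h6 h7)).trans_le (h a ha).1)
    have h8 : ∀ i, ¬ G.Adj c (y i) := fun i e =>
      hc' (Or.inr (mem_biUnion (mem_univ i) (Or.inl ⟨hP a hc, e⟩)))
    have h9 : ∀ i, ¬ G.Adj c (z i) := fun i e =>
      hc' (Or.inr (mem_biUnion (mem_univ i) (Or.inr ⟨hP a hc, e⟩)))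
    have h10 : ∀ i, ¬ G.Adj (z i) a := fun i e =>
      (h4 i).2.2 (Or.inr (Or.inl ⟨(hP _ (h4 i).2.1).1, e⟩))
    refine ⟨Fin.cons a y, Fin.cons c z, fun i => Fin.cases
      ⟨ha, hc, fun e => hc' (Or.inl ⟨e, (hP a hc).2⟩)⟩
      (fun i => ⟨(h4 i).1.1.1, (h4 i).2.1, fun e => (h4 i).2.2 (Or.inl e)⟩) i, fun i j => ?_⟩
    refine Fin.cases (Fin.cases (fun e => absurd rfl e)
      (fun j _ => ⟨(h4 j).1.1.2, h9 j, h8 j⟩) j) (fun i => ?_) i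
    exact Fin.cases (fun _ => ⟨fun e => (h4 i).1.1.2 e.symm, fun e => h9 i e.symm, h10 i⟩)
      (fun j e => h5 i j fun e' => e (congrArg Fin.succ e')) j

theorem col_of_sub_free (h0 : ℵ₀ ≤ θ) (hl : θ < lam) (hp : lam ^ θ ≤ lam) (hm : 2 ≤ m)
    (hc : ¬ (sub m).IsIndContained G)
    (hK' : ¬ ∃ A B : Set U, #A = succ lam ∧ #B = θ ∧ ∀ a ∈ A, ∀ b ∈ B, G.Adj a b) :
    ∃ r : U → U → Prop, IsWellOrder U r ∧ ∀ v, #{u // r u v ∧ G.Adj u v} < lam := by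
  have h1 : ℵ₀ ≤ lam := h0.trans hl.le
  have hK : ∀ B : Set U, #B = θ → #{v | ∀ b ∈ B, G.Adj v b} ≤ lam := fun B hB => by
    by_contra h
    obtain ⟨A, hA, hc⟩ := le_mk_iff_exists_subset.1 (succ_le_of_lt (not_le.1 h))
    exact hK' ⟨A, B, hc, hB, hA⟩
  choose T hT hT' using exists_hit h0 hl hp hK hm hc
  have hs : ∀ S : Set U, #{y | #S ≤ lam ∧ y ∈ S} ≤ lam := fun S => by
    by_cases h : #S ≤ lam
    · exact (mk_le_mk_of_subset fun y hy => hy.2).trans h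
    · simp [h]
  have hfin : ∀ {α : Type} {s : Set α}, s.Finite → #s ≤ lam := fun h =>
    (lt_aleph0_iff_set_finite.2 h).le.trans h1
  let F : List U → Set U := fun l => (⋃ z ∈ {z : Fin m → U | ∀ i, z i ∈ {a | a ∈ l}}, T z) ∪
    ⋃ a ∈ {a | a ∈ l}, ⋃ b ∈ {b | b ∈ l},
      {y | #{w | G.Adj a w ∧ G.Adj b w} ≤ lam ∧ y ∈ {w | G.Adj a w ∧ G.Adj b w}}
  have hF : ∀ l, #(F l) ≤ lam := fun l => (mk_union_le _ _).trans (add_le_of_le h1
    (le_biUnion h1 (hfin (Finite.pi' fun _ => l.finite_toSet)) fun z _ => hT z)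
    (le_biUnion h1 (hfin l.finite_toSet) fun a _ =>
      le_biUnion h1 (hfin l.finite_toSet) fun b _ => hs _))
  have hM : ∀ M, Closed F M → ∀ z : Fin m → U, (∀ i, z i ∈ M) → T z ⊆ M := fun M hM z hz y hy =>
    hM (List.ofFn z) (by simpa using hz) (Or.inl (mem_biUnion (x := z) (by simp) hy))
  have hM2 : ∀ M, Closed F M → ∀ v ∉ M, #{u | u ∈ M ∧ G.Adj u v} ≤ lam := fun M h v hv =>
    few_nbrs h0 hl hp hK (m := m) (fun A hA => ⟨cl F A, card_cl h1 hF hA, fun z hz p hp hd =>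
      hT' z p hp (hd.mono_right (hM _ (closed_cl F A) z fun i => subset_cl F A (hz i)))⟩)
      fun a ha b hb => not_le.1 fun e => hv (h [a, b] (by simpa using ⟨ha.1, hb.1⟩) (Or.inr
        (mem_biUnion (x := a) (by simp) (mem_biUnion (x := b) (by simp) ⟨e, ha.2, hb.2⟩))))
  obtain ⟨P, B, ⟨hP, hP', hB⟩, ht⟩ := exists_tree h1 hF _ univ rfl
  let D : U → Set U := fun u => B u ∪ ⋃ M ∈ P u, {x | x ∈ M ∧ G.Adj x u}
  have hD : ∀ u, #(D u) ≤ lam := fun u => (mk_union_le _ _).trans (add_le_of_le h1 (hB u)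
    (le_biUnion h1 (hfin (hP u)) fun M h => hM2 M (hP' u M h).1 u (hP' u M h).2))
  let Y : U → Set U → Set U := fun b M =>
    {y | G.Adj b y ∧ y ∉ M ∧ θ ≤ #{x | x ∈ M ∧ G.Adj x y ∧ ¬ G.Adj x b}}
  refine col_le_of_closed (F := fun l => ⋃ u ∈ {u | u ∈ l}, (D u ∪ Bad G θ (D u)) ∪
    ⋃ M ∈ P u, {z | #(Y u M) ≤ lam ∧ z ∈ Y u M}) h1
    (fun l => le_biUnion h1 (hfin l.finite_toSet) fun u _ => (mk_union_le _ _).trans
      (add_le_of_le h1 ((mk_union_le _ _).trans (add_le_of_le h1 (hD u) (card_bad h1 hp hK (hD u))))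
        (le_biUnion h1 (hfin (hP u)) fun M _ => hs _))) fun X hX v hv => ?_
  have h2 : ∀ u ∈ X, v ∉ (D u ∪ Bad G θ (D u)) ∪ ⋃ M ∈ P u,
      {z | #(Y u M) ≤ lam ∧ z ∈ Y u M} := fun u hu h =>
    hv (hX [u] (by simpa using hu) (mem_biUnion (List.mem_singleton_self u) h))
  have h3 : ∀ u ∈ X, #{x | x ∈ D u ∧ G.Adj x v} < θ := fun u hu =>
    not_le.1 fun e => h2 u hu (Or.inl (Or.inr e))
  by_contra h
  have h4 : ∃ b ∈ {u | u ∈ X ∧ G.Adj u v}, ∃ M ∈ P b, θ ≤ #{x | x ∈ M ∧ G.Adj x v} := by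
    by_contra h4
    push Not at h4
    obtain ⟨x, hx, y, hy, e1, e2⟩ := free_pair h0 (hl.trans_le (not_lt.1 h))
      (f := fun a => {x | x ∈ D a ∧ G.Adj x v} ∪ ⋃ M ∈ P a, {x | x ∈ M ∧ G.Adj x v}) fun a ha =>
      (mk_union_le _ _).trans_lt (add_lt_of_lt h0 (h3 a ha.1) (small_biUnion h0 (hP a) (h4 a ha)))
    rcases ht x trivial y trivial with ⟨M, h5, h6⟩ | ⟨M, h5, h6⟩ | h5
    · exact e1 (Or.inr (mem_biUnion h5 ⟨h6, hx.2⟩))
    · exact e2 (Or.inr (mem_biUnion h5 ⟨h6, hy.2⟩))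
    · exact e2 (Or.inl ⟨Or.inl h5, hy.2⟩)
  obtain ⟨b, hb, M, hbM, h4⟩ := h4
  have h5 : v ∉ M := fun e => h2 b hb.1 (Or.inl (Or.inl (Or.inr (mem_biUnion hbM ⟨e, hb.2.symm⟩))))
  have h6 : θ ≤ #{x | x ∈ M ∧ G.Adj x v ∧ ¬ G.Adj x b} := by
    by_contra h6
    refine absurd (h4.trans ((mk_le_mk_of_subset fun x hx => ?_).trans (mk_union_le _ _)))
      (not_le.2 (add_lt_of_lt h0 (not_le.1 h6) (h3 b hb.1)))
    by_cases e : G.Adj x b
    · exact Or.inr ⟨Or.inr (mem_biUnion hbM ⟨hx.1, e⟩), hx.2⟩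
    · exact Or.inl ⟨hx.1, hx.2, e⟩
  have h7 : lam < #(Y b M) := not_le.1 fun e =>
    h2 b hb.1 (Or.inr (mem_biUnion hbM ⟨e, hb.2, h5, h6⟩))
  obtain ⟨y, z, h8, h9⟩ := exists_legs h0 hl hp hK (M := M)
    (P := fun y => {x | x ∈ M ∧ G.Adj x y ∧ ¬ G.Adj x b}) (fun y x hx => ⟨hx.1, hx.2.1⟩) m
    (Y b M) ∅ h7 (by simp) fun y hy => ⟨hy.2.2, hM2 M (hP' b M hbM).1 y hy.2.1⟩
  refine hT' z (b, y) ⟨fun i => ⟨(h8 i).1.1, (h8 i).2.1.2.1, (h8 i).2.1.2.2⟩, h9⟩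
    (disjoint_left.2 fun u hu e => ?_)
  have h10 := hM M (hP' b M hbM).1 z (fun i => (h8 i).2.1.1) e
  rcases hu with rfl | ⟨i, rfl⟩
  · exact (hP' _ M hbM).2 h10
  · exact (h8 i).1.2.1 h10

end Pool.Agent.FS.SubdivisionFree
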