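import Pool.Agent.Lib.MP_cabec5_lc.Induced

/-!
A decomposition in the style of Davies trees, and some facts on set mappings.
-/

namespace Pool.Agent.FS.SubdivisionFree

open Cardinal Set Order
open Pool.Agent.Lib.MP_cabec5_lc

variable {U : Type} {G : SimpleGraph U} {θ lam : Cardinal.{0}}

def Tree (F : List U → Set U) (lam : Cardinal.{0}) (X : Set U) : Prop :=
  ∃ (P : U → Set (Set U)) (B : U → Set U), ((∀ y, (P y).Finite) ∧
    (∀ y, ∀ M ∈ P y, Closed F M ∧ y ∉ M) ∧ ∀ y, #(B y) ≤ lam) ∧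
    ∀ x ∈ X, ∀ y ∈ X, x ∈ ⋃₀ P y ∨ y ∈ ⋃₀ P x ∨ y ∈ B x

theorem exists_tree {F : List U → Set U} (h0 : ℵ₀ ≤ lam) (hF : ∀ l, #(F l) ≤ lam) (k : Cardinal) :
    ∀ X : Set U, #X = k → Tree F lam X := by
  induction k using WellFoundedLT.induction with
  | ind k ih =>
  intro X hk
  obtain ⟨e, he, hc⟩ := exists_enum X
  rcases le_or_gt k lam with hle | hlt
  · exact ⟨fun _ => ∅, fun _ => X, ⟨fun _ => finite_empty, by simp, fun _ => hk ▸ hle⟩,
      fun _ _ _ h => Or.inr (Or.inr h)⟩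
  · let Y : Ordinal.{0} → Set U := fun a => cl F {u | u ∈ X ∧ e u < a}
    have hYm : Monotone Y := fun a b hab =>
      cl_subset (closed_cl _ _) fun u hu => subset_cl F _ ⟨hu.1, hu.2.trans_le hab⟩
    have hg : ∀ a, ∃ (P : U → Set (Set U)) (B : U → Set U), ((∀ y, (P y).Finite) ∧
        (∀ y, ∀ M ∈ P y, Closed F M ∧ y ∉ M) ∧ ∀ y, #(B y) ≤ lam) ∧ (a < k.ord →
        ∀ x ∈ Y a, ∀ y ∈ Y a, x ∈ ⋃₀ P y ∨ y ∈ ⋃₀ P x ∨ y ∈ B x) := fun a => by
      by_cases ha : a < k.ord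
      · have h1 : #(Y a) ≤ max a.card lam :=
          card_cl (h0.trans (le_max_right _ _)) (fun l => (hF l).trans (le_max_right _ _))
            ((hc a).trans (le_max_left _ _))
        obtain ⟨P, B, h2, h⟩ := ih _ (h1.trans_lt (max_lt (lt_ord.1 ha) hlt)) (Y a) rfl
        exact ⟨P, B, h2, fun _ => h⟩
      · exact ⟨fun _ => ∅, fun _ => ∅, ⟨fun _ => finite_empty, by simp, by simp⟩,
          fun h => absurd h ha⟩
    choose P B hP hg using hg
    let rho : U → Ordinal.{0} := fun u => sInf {a | u ∈ Y a}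
    have hmem : ∀ u ∈ X, u ∈ Y (e u + 1) := fun u hu => subset_cl F _ ⟨hu, lt_add_one _⟩
    have hrho : ∀ u ∈ X, u ∈ Y (rho u) := fun u hu =>
      csInf_mem (s := {a | u ∈ Y a}) ⟨_, hmem u hu⟩
    have hle : ∀ u a, u ∈ Y a → rho u ≤ a := fun u a h => csInf_le' h
    have hlow : ∀ x ∈ X, ∀ y, rho x < rho y → x ∈ ⋃₀ (P (rho y) y ∪
        {M | M = ⋃ a ∈ Iio (rho y), Y a ∧ (Iio (rho y)).Nonempty}) := fun x hx y h =>
      ⟨_, Or.inr ⟨rfl, _, h⟩, mem_biUnion h (hrho x hx)⟩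
    refine ⟨fun y => P (rho y) y ∪ {M | M = ⋃ a ∈ Iio (rho y), Y a ∧ (Iio (rho y)).Nonempty},
      fun y => B (rho y) y, ⟨fun y => ((hP _).1 y).union
        ((finite_singleton _).subset fun M hM => hM.1), ?_, fun y => (hP _).2.2 y⟩,
      fun x hx y hy => ?_⟩
    · rintro y M (h | ⟨rfl, hne⟩)
      · exact (hP _).2.1 y M h
      · refine ⟨fun l hl => ?_, fun h => ?_⟩
        · obtain ⟨a, ha, h2⟩ := list_in_chain hYm hne l fun x hx => by
            simpa using hl x hx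
          exact (closed_cl F _ l h2).trans (subset_biUnion_of_mem (u := Y) ha)
        · obtain ⟨a, ha, h2⟩ := mem_iUnion₂.1 h
          exact absurd (hle y a h2) (not_le.2 ha)
    · rcases lt_trichotomy (rho x) (rho y) with h | h | h
      · exact Or.inl (hlow x hx y h)
      · have hv' : rho y < k.ord := (hle y _ (hmem y hy)).trans_lt
          ((isSuccLimit_ord (h0.trans hlt.le)).succ_lt (hk ▸ he y hy))
        rcases hg _ hv' x (h ▸ hrho x hx) y (hrho y hy) with h1 | h1 | h1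
        · exact Or.inl (sUnion_mono subset_union_left h1)
        · exact Or.inr (Or.inl (sUnion_mono subset_union_left (h ▸ h1)))
        · exact Or.inr (Or.inr (show y ∈ B (rho x) x from h ▸ h1))
      · exact Or.inr (Or.inl (hlow y hy x h))

theorem free_pair (h0 : ℵ₀ ≤ θ) {S : Set U} (hS : θ < #S) {f : U → Set U}
    (hf : ∀ x ∈ S, #(f x) < θ) : ∃ x ∈ S, ∃ y ∈ S, x ∉ f y ∧ y ∉ f x := by
  obtain ⟨N, hN, hc⟩ := le_mk_iff_exists_subset.1 hS.le
  obtain ⟨b, hb, hb'⟩ := exists_not_mem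
    ((le_biUnion h0 hc.le fun a ha => (hf a (hN ha)).le).trans_lt hS)
  obtain ⟨a, ha, ha'⟩ := exists_not_mem ((hf b hb).trans_eq hc.symm)
  exact ⟨a, hN ha, b, hb, ha', fun h => hb' (mem_biUnion ha h)⟩

theorem core_small (h0 : ℵ₀ ≤ θ) (hl : θ < lam)
    (hK : ∀ B : Set U, #B = θ → #{v | ∀ b ∈ B, G.Adj v b} ≤ lam) {Y : Set U} (hY : lam < #Y) :
    #{z | #{y | y ∈ Y ∧ ¬ G.Adj z y} ≤ lam} < θ := by
  have h1 : ℵ₀ ≤ lam := h0.trans hl.le
  by_contra h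
  obtain ⟨B, hB, hc⟩ := le_mk_iff_exists_subset.1 (not_lt.1 h)
  refine absurd ((mk_le_mk_of_subset (t := {v | ∀ b ∈ B, G.Adj v b} ∪
    ⋃ z ∈ B, {y | y ∈ Y ∧ ¬ G.Adj z y}) fun y hy => ?_).trans ((mk_union_le _ _).trans
      (add_le_of_le h1 (hK B hc) (le_biUnion h1 (hc.le.trans hl.le) hB)))) (not_le.2 hY)
  by_contra h4
  refine h4 (Or.inl fun b hb => ?_)
  by_contra h5
  exact h4 (Or.inr (mem_biUnion hb ⟨hy, fun h => h5 h.symm⟩))

theorem clique_of_step {α : Type} {Big : Set α → Prop} {R : α → α → Prop}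
    (hs : ∀ p q, R p q → R q p) (h : ∀ S, Big S → ∃ p ∈ S, Big {q | q ∈ S ∧ R p q}) (n : ℕ) :
    ∀ S, Big S → ∃ f : Fin n → α, (∀ i, f i ∈ S) ∧ ∀ i j, i ≠ j → R (f i) (f j) := by
  induction n with
  | zero => exact fun S _ => ⟨Fin.elim0, fun i => i.elim0, fun i => i.elim0⟩
  | succ n ih =>
    intro S hS
    obtain ⟨p, hp, h1⟩ := h S hS
    obtain ⟨f, hf, hf'⟩ := ih _ h1
    refine ⟨Fin.cons p f, fun i => Fin.cases hp (fun i => (hf i).1) i, fun i j => ?_⟩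
    refine Fin.cases (Fin.cases (fun e => absurd rfl e) (fun j _ => (hf j).2) j) (fun i => ?_) i
    exact Fin.cases (fun _ => hs _ _ (hf i).2)
      (fun j e => hf' i j fun e' => e (congrArg Fin.succ e')) j

theorem free_set (h0 : ℵ₀ ≤ θ) (hS : θ < #U) {f : U → Set U} (hf : ∀ x, #(f x) < θ) (n : ℕ) :
    ∃ z : Fin n → U, ∀ i j, i ≠ j → z i ∉ f (z j) := by
  obtain ⟨z, -, hz⟩ := clique_of_step (Big := fun S => θ < #S)
    (R := fun x y => x ∉ f y ∧ y ∉ f x) (fun _ _ h => h.symm) (fun S hS => by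
      by_contra h
      push Not at h
      obtain ⟨N, hN, hc⟩ := le_mk_iff_exists_subset.1 hS.le
      obtain ⟨b, hb, hb'⟩ := exists_not_mem ((le_biUnion h0 hc.le fun a ha =>
        (mk_union_le _ _).trans (add_le_of_le h0 (hf a).le (h a (hN ha)))).trans_lt hS)
      obtain ⟨a, ha, ha'⟩ := exists_not_mem ((hf b).trans_eq hc.symm)
      exact hb' (mem_biUnion ha (Or.inr ⟨hb, ha', fun e => hb' (mem_biUnion ha (Or.inl e))⟩)))
    n univ (by rwa [mk_univ])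
  exact ⟨z, fun i j h => (hz i j h).1⟩

theorem exists_apart (h0 : ℵ₀ ≤ θ) (hl : θ < lam) (hp : lam ^ θ ≤ lam)
    (hK : ∀ B : Set U, #B = θ → #{v | ∀ b ∈ B, G.Adj v b} ≤ lam) {α : Type} {inn : α → Set U}
    (hfin : ∀ p, (inn p).Finite) (hne : ∀ p, (inn p).Nonempty) (n : ℕ) (S : Set α)
    (hS : ∀ T : Set U, #T ≤ lam → ∃ p ∈ S, Disjoint (inn p) T) :
    ∃ f : Fin n → α, (∀ i, f i ∈ S) ∧
      ∀ i j, i ≠ j → ∀ u ∈ inn (f i), ∀ w ∈ inn (f j), ¬ G.Adj u w := by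
  have h1 : ℵ₀ ≤ lam := h0.trans hl.le
  have hi : ∀ p, #(inn p) ≤ lam := fun p => (lt_aleph0_iff_set_finite.2 (hfin p)).le.trans h1
  refine clique_of_step (Big := fun S => ∀ T : Set U, #T ≤ lam → ∃ p ∈ S, Disjoint (inn p) T)
    (R := fun p q => ∀ u ∈ inn p, ∀ w ∈ inn q, ¬ G.Adj u w)
    (fun p q h u hu w hw e => h w hw u hu e.symm) (fun S hS => ?_) n S hS
  by_contra hc
  push Not at hc
  choose! T hT hT' using hc
  obtain ⟨m, hm⟩ := zorn_subset {N : Set α | N ⊆ S ∧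
      N.Pairwise fun p q => Disjoint (inn p) (inn q)} fun c hc hch =>
    ⟨⋃₀ c, ⟨fun p ⟨N, hN, h⟩ => (hc hN).1 h, (pairwise_sUnion hch.directedOn).2
      fun N hN => (hc hN).2⟩, fun N hN => subset_sUnion_of_mem hN⟩
  rcases lt_or_ge #m θ with h | h
  · obtain ⟨p, hp, hd⟩ := hS _ (le_biUnion h1 (h.le.trans hl.le) fun p _ => hi p)
    have h2 : ∀ q ∈ m, Disjoint (inn p) (inn q) := fun q hq =>
      hd.mono_right (subset_biUnion_of_mem (u := inn) hq)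
    have h3 : p ∈ m := hm.2 (y := insert p m) ⟨insert_subset hp hm.1.1,
      hm.1.2.insert fun q hq _ => ⟨h2 q hq, (h2 q hq).symm⟩⟩ (subset_insert _ _) (mem_insert _ _)
    obtain ⟨u, hu⟩ := hne p
    exact disjoint_left.1 (h2 p h3) hu hu
  · obtain ⟨N, hN, hN'⟩ := le_mk_iff_exists_subset.1 h
    have h2 : #(⋃ p ∈ N, inn p) ≤ lam := le_biUnion h1 (hN'.le.trans hl.le) fun p _ => hi p
    obtain ⟨p, hp', hd⟩ := hS _ ((mk_union_le _ _).trans (add_le_of_le h1 (card_bad h1 hp hK h2)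
      (le_biUnion h1 (hN'.le.trans hl.le) fun q hq => hT q (hm.1.1 (hN hq)))))
    have h3 : ∀ u ∈ inn p, #{q | q ∈ N ∧ ∃ w ∈ inn q, G.Adj w u} < θ := fun u hu => by
      refine lt_of_le_of_lt ?_ (not_le.1 (disjoint_left.1 (hd.mono_right subset_union_left) hu))
      have h4 : ∀ q : {q | q ∈ N ∧ ∃ w ∈ inn q, G.Adj w u}, ∃ w ∈ inn q.1, G.Adj w u :=
        fun q => q.2.2
      choose w hw hw' using h4
      refine mk_le_of_injective (f := fun q => ⟨w q, mem_biUnion q.2.1 (hw q), hw' q⟩)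
        fun q q' e => ?_
      by_contra h5
      have h6 : w q = w q' := congrArg Subtype.val e
      exact disjoint_left.1 (hm.1.2 (hN q.2.1) (hN q'.2.1) fun e => h5 (Subtype.ext e)) (hw q)
        (h6 ▸ hw q')
    obtain ⟨q, hq, hq'⟩ := exists_not_mem ((small_biUnion h0 (hfin p) h3).trans_eq hN'.symm)
    refine hT' q (hm.1.1 (hN hq)) p ⟨hp', fun w hw u hu e => hq' (mem_biUnion hu ⟨hq, w, hw, e⟩)⟩
      (hd.mono_right fun u hu => Or.inr (mem_biUnion hq hu))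

theorem exists_trace_in (h1 : ℵ₀ ≤ lam) (hp : lam ^ θ ≤ lam)
    (hK : ∀ B : Set U, #B = θ → #{v | ∀ b ∈ B, G.Adj v b} ≤ lam) {A C : Set U}
    (hA : #A ≤ lam) (hC : lam < #C) :
    ∃ t : Set U, #t < θ ∧ lam < #{w | w ∈ C ∧ ∀ x ∈ A, G.Adj x w → x ∈ t} := by
  by_contra h
  push Not at h
  have h4 : #{B : Set U | B ⊆ A ∧ #B < θ} ≤ lam :=
    ((mk_le_mk_of_subset (t := {B | B ⊆ A ∧ #B ≤ θ}) fun B hB => ⟨hB.1, hB.2.le⟩).trans
      (mk_bounded_subset_le A θ)).trans ((power_le_power_right (max_le hA h1)).trans hp)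
  refine absurd ((mk_le_mk_of_subset (t := Bad G θ A ∪ ⋃ t ∈ {B : Set U | B ⊆ A ∧ #B < θ},
    {w | w ∈ C ∧ ∀ x ∈ A, G.Adj x w → x ∈ t}) fun w hw => ?_).trans ((mk_union_le _ _).trans
      (add_le_of_le h1 (card_bad h1 hp hK hA) (le_biUnion h1 h4 fun t ht => h t ht.2))))
    (not_le.2 hC)
  by_cases h3 : w ∈ Bad G θ A
  · exact Or.inl h3
  · exact Or.inr (mem_biUnion (x := {u | u ∈ A ∧ G.Adj u w}) ⟨fun _ h => h.1, not_le.1 h3⟩
      ⟨hw, fun x hx e => ⟨hx, e⟩⟩)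

end Pool.Agent.FS.SubdivisionFree
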